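import Pool.Agent.Helper77.RL.Goals3
import Pool.Agent.Helper42.RD.EXA

/-!
# Project RL (MP_fc6b1e_nt), part III: packet RL-CHO

Choice of the Kummer generator `b`.
-/

namespace Pool.Agent.Helper7.RL

open NumberField Polynomial Module IsDedekindDomain Pool.Agent.Helper51.SigLeo
open Pool.Agent.Helper51.RP
open Pool.Agent.Helper77.RL
open Pool.Agent.Helper40.RS (bel gw bel_smul lies conj_of_bel free_gw absNorm_free val_smul)
open Pool.Agent.Helper40.RD (bel_of_above ordW)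
open Pool.Agent.Helper42.RD

/-- The divisor of an element. -/
theorem exists_div {F : Type} [Field F] [NumberField F] (x : 𝓞 F) (hx : x ≠ 0) :
    ∃ D : HeightOneSpectrum (𝓞 F) →₀ ℤ, ∀ Q, D Q = ordv Q (x : F) := by
  classical
  have h := finite_dvd x hx
  refine ⟨Finsupp.onFinset h.toFinset (fun Q => ordv Q (x : F)) ?_, fun Q => rfl⟩
  intro Q hQ
  rw [Set.Finite.mem_toFinset]
  by_contra hn
  apply hQ
  have h1 : Q.valuation F (x : F) = 1 := (Q.valuation_eq_one_iff_notMem (K := F)).2 hn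
  unfold ordv
  rw [h1, WithZero.log_one, neg_zero]

/-- The element `b` (for given targets `t`). -/
theorem exists_bn (hBEN : X_BEN) (p : ℕ) [Fact p.Prime] (n N : ℕ) (K₁ M₁ : Type) [Field K₁]
    [NumberField K₁] [IsTotallyComplex K₁] [Field M₁] [NumberField M₁] [Algebra K₁ M₁]
    [IsGalois K₁ M₁] (hnt : 1 < finrank K₁ M₁) (h3 : p = 2 → 3 ≤ finrank K₁ M₁)
    (Fs : Finset (HeightOneSpectrum (𝓞 K₁))) (hpF : ∀ Q ∈ Fs, (p : 𝓞 K₁) ∉ Q.asIdeal)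
    (t : HeightOneSpectrum (𝓞 K₁) → 𝓞 K₁) (Q₀ : HeightOneSpectrum (𝓞 K₁)) (hQ₀ : Q₀ ∈ Fs)
    (ht : Q₀.intValuation (t Q₀) = WithZero.exp (-1 : ℤ)) :
    ∃ b : 𝓞 K₁, b ≠ 0 ∧ (p : 𝓞 K₁) ^ (N + 1) ∣ b - 1 ∧ (∀ Q ∈ Fs, b - t Q ∈ Q.asIdeal ^ 2) ∧
      ∀ (W : HeightOneSpectrum (𝓞 M₁)) (Q : HeightOneSpectrum (𝓞 K₁)), Above W Q →
        FreeP K₁ W → Q ∉ Fs → (p : ℤ) ^ n ∣ ordv Q (b : K₁) := by
  have hp' : p.Prime := Fact.out
  have hpK₁ : (p : 𝓞 K₁) ≠ 0 := Nat.cast_ne_zero.2 hp'.ne_zero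
  have hpF' : ∀ Q ∈ Fs, (p : 𝓞 K₁) ^ (N + 1) ∉ Q.asIdeal := fun Q hQ h =>
    hpF Q hQ (Q.isPrime.mem_of_pow_mem _ h)
  obtain ⟨β, 𝔫, h𝔫, h𝔫p, h𝔫F, hβ1, hβt, hcase⟩ :=
    crt_mod ((p : 𝓞 K₁) ^ (N + 1)) (pow_ne_zero _ hpK₁) Fs hpF' t
  have hβ0 : β ≠ 0 := by
    intro h0
    have h1 := val_of_sub_mem_sq Q₀ β (t Q₀) ht (hβt Q₀ hQ₀)
    rw [h0] at h1
    have h2 : Q₀.valuation K₁ ((0 : 𝓞 K₁) : K₁) = 0 := by
      have h3 : ((0 : 𝓞 K₁) : K₁) = 0 := rfl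
      rw [h3, map_zero]
    rw [h2] at h1
    exact WithZero.exp_ne_zero h1.symm
  obtain ⟨D, hD⟩ := exists_div β hβ0
  obtain ⟨b₁, hb₁0, hb₁, hb₁ord⟩ := hBEN p K₁ M₁ hnt h3 𝔫 h𝔫 n D
  have e : ∀ s : 𝓞 K₁, β * b₁ - s = β * (b₁ - 1) + (β - s) := fun s => by ring
  have hd3 : ((p : 𝓞 K₁) ^ (N + 1)) ^ 3 ∣ β * b₁ - 1 := by
    rw [e]; exact dvd_add ((h𝔫p _ hb₁).mul_left _) hβ1
  have hd : (p : 𝓞 K₁) ^ (N + 1) ∣ β * b₁ - 1 :=
    (dvd_pow_self _ (by norm_num)).trans hd3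
  refine ⟨β * b₁, mul_ne_zero hβ0 hb₁0, hd, ?_, ?_⟩
  · intro Q hQ
    rw [e]
    exact Ideal.add_mem _ (Ideal.mul_mem_left _ _ (h𝔫F _ hb₁ Q hQ)) (hβt Q hQ)
  · intro W Q hWQ hfr hQF
    rcases hcase Q with h | h | h
    · have h1 := hb₁ord W Q hWQ hfr h
      rw [hD] at h1
      have hβ0' : (β : K₁) ≠ 0 := fun h => hβ0 (RingOfIntegers.ext h)
      have hb₁0' : (b₁ : K₁) ≠ 0 := fun h => hb₁0 (RingOfIntegers.ext h)
      have h2 : ((β * b₁ : 𝓞 K₁) : K₁) = (β : K₁) * (b₁ : K₁) := rfl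
      rw [h2, ordv_mul Q hβ0' hb₁0']
      exact h1
    · have h1 : β * b₁ - 1 ∈ Q.asIdeal := Ideal.mem_of_dvd _ hd h
      have h2 : Q.valuation K₁ (((β * b₁ : 𝓞 K₁) : K₁) - 1) < 1 := by
        have h3 : ((β * b₁ : 𝓞 K₁) : K₁) - 1 = ((β * b₁ - 1 : 𝓞 K₁) : K₁) := rfl
        rw [h3]
        exact (Q.valuation_lt_one_iff_mem (K := K₁) _).2 h1
      have h4 := val_eq_one_of_sub Q h2
      have h5 : ordv Q ((β * b₁ : 𝓞 K₁) : K₁) = 0 := by
        unfold ordv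
        rw [h4, WithZero.log_one, neg_zero]
      rw [h5]; exact dvd_zero _
    · exact absurd h hQF

/-- **X_CHO.** -/
theorem x_cho (h1 : Pool.Agent.Helper77.RL.X_TWN) (h2 : Pool.Agent.Helper77.RL.X_BEN)
    (h3 : Pool.Agent.Helper42.RD.E_NFI) : Pool.Agent.Helper77.RL.X_CHO := by
  classical
  intro p hp n K M E M₁ _ _ _ _ _ _ _ _ _ _ _ _ _ _ _ _ _ _ _ ξ hT R hR
  have hp' : p.Prime := hp.out
  obtain ⟨hG, hp3, hfree⟩ := h1 p n K M E M₁ ξ hT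
  have hE : IsTotallyComplex E := totallyComplex_of (K := K)
  have hpE : (p : 𝓞 E) ≠ 0 := Nat.cast_ne_zero.2 hp'.ne_zero
  have hZ : ({Q : HeightOneSpectrum (𝓞 E) | bel K Q ∈ R} ∪
      {Q : HeightOneSpectrum (𝓞 E) | (p : 𝓞 E) ∈ Q.asIdeal}).Finite :=
    (finite_above R hR).union (finite_dvd _ hpE)
  obtain ⟨Q₀, hQ₀Z, hQ₀free, W₀, hW₀, hW₀free⟩ := h3 K E M₁ hT.nt _ hZ
  have hQ₀R : bel K Q₀ ∉ R := fun h => hQ₀Z (Or.inl h)
  have hQ₀p : (p : 𝓞 E) ∉ Q₀.asIdeal := fun h => hQ₀Z (Or.inr h)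
  have hFfin : {Q : HeightOneSpectrum (𝓞 E) | ((p : 𝓞 E) ∉ Q.asIdeal ∧ bel K Q ∈ R) ∨
      bel K Q = bel K Q₀}.Finite := by
    refine ((finite_above R hR).union (finite_bel (M := E) (bel K Q₀))).subset ?_
    rintro Q (hQ | hQ)
    · exact Or.inl hQ.2
    · exact Or.inr hQ
  obtain ⟨Fs, hFs⟩ : ∃ Fs : Finset (HeightOneSpectrum (𝓞 E)), ∀ Q, Q ∈ Fs ↔
      (((p : 𝓞 E) ∉ Q.asIdeal ∧ bel K Q ∈ R) ∨ bel K Q = bel K Q₀) :=
    ⟨hFfin.toFinset, fun Q => by rw [Set.Finite.mem_toFinset]; rfl⟩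
  have hpF : ∀ Q ∈ Fs, (p : 𝓞 E) ∉ Q.asIdeal := by
    intro Q hQ
    rcases (hFs Q).1 hQ with h | h
    · exact h.1
    · rw [natCast_bel (K := K), h, ← natCast_bel (K := K)]; exact hQ₀p
  obtain ⟨ϖ, hϖ⟩ := Q₀.intValuation_exists_uniformizer
  obtain ⟨b, hb0, hbp, hbt, hbord⟩ := exists_bn h2 p n (p ^ n) E M₁ hT.nt hp3 Fs hpF
    (fun Q => if Q = Q₀ then ϖ else 1) Q₀ ((hFs Q₀).2 (Or.inr rfl)) (by rw [if_pos rfl]; exact hϖ)
  have hone : ∀ Q : HeightOneSpectrum (𝓞 E), Q ∈ Fs → Q ≠ Q₀ →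
      Q.valuation E ((b : E) - 1) < 1 := by
    intro Q hQ hne
    have h := hbt Q hQ
    rw [if_neg hne] at h
    have h3 : ((b : E) - 1) = ((b - 1 : 𝓞 E) : E) := rfl
    rw [h3]
    exact (Q.valuation_lt_one_iff_mem (K := E) _).2 (Ideal.pow_le_self two_ne_zero h)
  refine ⟨b, Q₀, hb0, ?_, hQ₀free, ?_, ?_, ?_⟩
  · intro Q v hQv hv
    have hv' : bel K Q = v := bel_of_above hQv
    by_cases hpQ : (p : 𝓞 E) ∈ Q.asIdeal
    · -- above p
      have hlt : Q.valuation E (p : E) < 1 := (natCast_mem_iff Q p).1 hpQ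
      have hpE' : (p : E) ≠ 0 := Nat.cast_ne_zero.2 hp'.ne_zero
      have hv0 : Q.valuation E (p : E) ≠ 0 := (Valuation.ne_zero_iff (Q.valuation E)).2 hpE'
      obtain ⟨y, hy⟩ := hbp
      have e1 : (b : E) - 1 = (p : E) ^ (p ^ n + 1) * (y : E) := by
        have h := congrArg (fun z : 𝓞 E => (z : E)) hy
        have e3 : (((p : 𝓞 E) : 𝓞 E) : E) = (p : E) := map_natCast (algebraMap (𝓞 E) E) p
        have e4 : (((p : 𝓞 E) ^ (p ^ n + 1) * y : 𝓞 E) : E) =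
            (((p : 𝓞 E) : 𝓞 E) : E) ^ (p ^ n + 1) * (y : E) := by
          push_cast
          rfl
        rw [e3] at e4
        rw [← e4]
        exact h
      rw [e1, map_mul, map_pow]
      have hy1 : Q.valuation E (y : E) ≤ 1 := Q.valuation_le_one y
      calc Q.valuation E (p : E) ^ (p ^ n + 1) * Q.valuation E (y : E)
          ≤ Q.valuation E (p : E) ^ (p ^ n + 1) * 1 := mul_le_mul_right hy1 _
        _ = Q.valuation E (p : E) ^ p ^ n * Q.valuation E (p : E) := by rw [mul_one, pow_succ]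
        _ < Q.valuation E (p : E) ^ p ^ n * 1 := by
            exact mul_lt_mul_of_pos_left hlt (zero_lt_iff.2 (pow_ne_zero _ hv0))
        _ = _ := mul_one _
    · have hvp : Q.valuation E (p : E) = 1 := (natCast_notMem_iff Q p).1 hpQ
      rw [hvp, one_pow]
      have hvR : v ∈ R := by
        rcases hv with h | h
        · exact h
        · exfalso
          apply hpQ
          rw [natCast_bel (K := K), hv']
          exact (natCast_mem_iff v p).2 h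
      refine hone Q ((hFs Q).2 (Or.inl ⟨hpQ, by rw [hv']; exact hvR⟩)) ?_
      intro h
      apply hQ₀R
      rw [← h, hv']
      exact hvR
  · have h := hbt Q₀ ((hFs Q₀).2 (Or.inr rfl))
    rw [if_pos rfl] at h
    have h1 := val_of_sub_mem_sq Q₀ b ϖ hϖ h
    unfold ordv
    rw [h1, WithZero.log_exp]
    norm_num
  · intro Q' hQ' hne
    have h := hone Q' ((hFs Q').2 (Or.inr (bel_eq_of_conj hQ'))) hne
    unfold ordv
    rw [val_eq_one_of_sub Q' h, WithZero.log_one, neg_zero]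
  · rintro Q v hQv hvR hvp ⟨w, hwv, hwfree⟩
    have hv' : bel K Q = v := bel_of_above hQv
    have hw' : bel K w = v := bel_of_above hwv
    obtain ⟨W, hW⟩ := exists_bel (M₁ := M₁) Q
    have e1 : bel K (bel M W) = bel K w := by
      rw [bel_bel W, ← bel_bel (M := E) W, hW, hv', hw']
    have hfr : FreeP K (bel M W) := free_of_conj (conj_of_bel' e1) hwfree
    refine hbord W Q ?_ (hfree W (bel M W) rfl hfr) ?_
    · rw [← hW]; exact above_bel W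
    · intro h
      rcases (hFs Q).1 h with h | h
      · apply hvR
        rw [← hv']; exact h.2
      · apply hW₀free
        refine hfree W₀ (bel M W₀) rfl ?_
        refine free_of_conj (conj_of_bel' ?_) hwfree
        rw [hw', ← hv', h, bel_bel W₀, ← bel_bel (M := E) W₀, bel_of_above hW₀]

end Pool.Agent.Helper7.RL
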